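import Pool.Agent.H58.SO.Basic

/-!
# Several orbits of vertices: realisation of finite configurations (RLZ)
-/

set_option autoImplicit false

namespace Pool.Agent.H52.SO

open Pool.Agent.H68.BP Pool.Agent.H58.SF Pool.Agent.H53.GC Pool.Agent.H53.NR Pool.Agent.H58.SO
open Classical

variable {V X Θ : Type} [LinearOrder V] {M : ℕ} {P : Type}

theorem real4 (B : Bs V X Θ M) {q : P → P → X × Ordering}
    (h : ∀ p : Fin M → P, ∃ x : Fin M → V, ∀ a b, B.ct (x a) (x b) = q (p a) (p b))
    (p : Fin 4 → P) : ∃ x : Fin 4 → V, ∀ a b, B.ct (x a) (x b) = q (p a) (p b) := by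
  obtain ⟨x, hx⟩ := h fun i => p (if h : i.val < 4 then ⟨i.val, h⟩ else 0)
  refine ⟨fun a => x (Fin.castLE B.four a), fun a b => ?_⟩
  rw [hx]
  have h1 : ∀ a : Fin 4, (if h : (Fin.castLE B.four a).val < 4 then
      (⟨(Fin.castLE B.four a).val, h⟩ : Fin 4) else 0) = a := by
    intro a
    rw [dif_pos (show (Fin.castLE B.four a).val < 4 from a.2)]
    rfl
  rw [h1, h1]

theorem real3 (B : Bs V X Θ M) {q : P → P → X × Ordering}
    (h : ∀ p : Fin M → P, ∃ x : Fin M → V, ∀ a b, B.ct (x a) (x b) = q (p a) (p b))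
    (p r s : P) : ∃ x y z : V, B.ct x x = q p p ∧ B.ct x y = q p r ∧ B.ct x z = q p s ∧
      B.ct y x = q r p ∧ B.ct y y = q r r ∧ B.ct y z = q r s ∧
      B.ct z x = q s p ∧ B.ct z y = q s r ∧ B.ct z z = q s s := by
  obtain ⟨x, hx⟩ := real4 B h ![p, r, s, s]
  exact ⟨x 0, x 1, x 2, hx 0 0, hx 0 1, hx 0 2, hx 1 0, hx 1 1, hx 1 2, hx 2 0, hx 2 1, hx 2 2⟩

/-- a realisation of all `M`-tuples gives a realisation -/
theorem pf_RLZ (hCFG : T_CFG) : T_RLZ := by
  intro V X Θ _ M B P _ q h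
  have r3 := fun p r s => real3 B h p r s
  -- the equivalence relation
  let S : Setoid P :=
    { r := fun p r => (q p r).2 = Ordering.eq
      iseqv := by
        refine ⟨fun p => ?_, fun {p r} hpr => ?_, fun {p r s} hpr hrs => ?_⟩
        · obtain ⟨x, y, z, h1, -⟩ := r3 p p p
          rw [← h1]
          exact (B.ct_snd_eq x x).2 rfl
        · obtain ⟨x, y, z, h1, h2, h3, h4, -⟩ := r3 p r r
          rw [← h4]
          rw [← h2] at hpr
          exact (B.ct_snd_eq y x).2 ((B.ct_snd_eq x y).1 hpr).symm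
        · obtain ⟨x, y, z, h1, h2, h3, h4, h5, h6, -⟩ := r3 p r s
          rw [← h3]
          rw [← h2] at hpr
          rw [← h6] at hrs
          exact (B.ct_snd_eq x z).2 (((B.ct_snd_eq x y).1 hpr).trans ((B.ct_snd_eq y z).1 hrs)) }
  have hS : ∀ p r : P, S p r ↔ (q p r).2 = Ordering.eq := fun p r => Iff.rfl
  have c1 : ∀ p r s : P, (q p r).2 = Ordering.eq → q p s = q r s ∧ q s p = q s r := by
    intro p r s hpr
    obtain ⟨x, y, z, h1, h2, h3, h4, h5, h6, h7, h8, h9⟩ := r3 p r s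
    rw [← h2] at hpr
    have h10 := (B.ct_snd_eq x y).1 hpr
    subst h10
    exact ⟨h3.symm.trans h6, h7.symm.trans h8⟩
  let W := Quotient S
  let o : W → P := Quotient.out
  have ho : ∀ w : W, (Quotient.mk S (o w)) = w := fun w => Quotient.out_eq w
  let Q : W → W → X × Ordering := fun w w' => q (o w) (o w')
  have hQ : ∀ p p' : P, Q (Quotient.mk S p) (Quotient.mk S p') = q p p' := by
    intro p p'
    have h1 : (q (o (Quotient.mk S p)) p).2 = Ordering.eq := (hS _ _).1 (Quotient.exact (ho _))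
    have h2 : (q (o (Quotient.mk S p')) p').2 = Ordering.eq := (hS _ _).1 (Quotient.exact (ho _))
    show q (o (Quotient.mk S p)) (o (Quotient.mk S p')) = q p p'
    rw [(c1 _ _ (o (Quotient.mk S p')) h1).1, (c1 _ _ p h2).2]
  have q3 : ∀ u v w : W, ∃ x y z : V, B.ct x x = Q u u ∧ B.ct x y = Q u v ∧ B.ct x z = Q u w ∧
      B.ct y x = Q v u ∧ B.ct y y = Q v v ∧ B.ct y z = Q v w ∧
      B.ct z x = Q w u ∧ B.ct z y = Q w v ∧ B.ct z z = Q w w := fun u v w =>
    r3 (o u) (o v) (o w)
  have eqQ : ∀ u v : W, (Q u v).2 = Ordering.eq → u = v := by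
    intro u v h1
    have h2 : (Quotient.mk S (o u)) = Quotient.mk S (o v) := Quotient.sound ((hS _ _).2 h1)
    rw [ho, ho] at h2
    exact h2
  have reflQ : ∀ u : W, (Q u u).2 = Ordering.eq := by
    intro u
    obtain ⟨x, y, z, h1, -⟩ := q3 u u u
    rw [← h1]
    exact (B.ct_snd_eq x x).2 rfl
  have transQ : ∀ u v w : W, (Q u v).2 = Ordering.lt → (Q v w).2 = Ordering.lt →
      (Q u w).2 = Ordering.lt := by
    intro u v w huv hvw
    obtain ⟨x, y, z, h1, h2, h3, h4, h5, h6, -⟩ := q3 u v w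
    rw [← h2] at huv
    rw [← h6] at hvw
    rw [← h3]
    exact (B.ct_snd_lt x z).2 (((B.ct_snd_lt x y).1 huv).trans ((B.ct_snd_lt y z).1 hvw))
  have gtQ : ∀ u v : W, (Q u v).2 = Ordering.gt ↔ (Q v u).2 = Ordering.lt := by
    intro u v
    obtain ⟨x, y, z, h1, h2, h3, h4, -⟩ := q3 u v v
    rw [← h2, ← h4, B.ct_snd_gt, B.ct_snd_lt]
  haveI : Finite W := Quotient.finite S
  let rk : W → ℕ := fun w => {w' : W | (Q w' w).2 = Ordering.lt}.ncard
  have rk_lt : ∀ u v : W, (Q u v).2 = Ordering.lt → rk u < rk v := by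
    intro u v huv
    apply Set.ncard_lt_ncard _ (Set.toFinite _)
    constructor
    · intro w hw
      exact transQ w u v hw huv
    · intro hsub
      have h1 : (Q u u).2 = Ordering.lt := hsub huv
      rw [reflQ u] at h1
      exact absurd h1 (by decide)
  have tri : ∀ u v : W, u = v ∨ (Q u v).2 = Ordering.lt ∨ (Q v u).2 = Ordering.lt := by
    intro u v
    rcases h1 : (Q u v).2 with _ | _ | _
    · exact Or.inr (Or.inl rfl)
    · exact Or.inl (eqQ u v h1)
    · exact Or.inr (Or.inr ((gtQ u v).1 h1))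
  have rk_inj : Function.Injective rk := by
    intro u v huv
    rcases tri u v with h1 | h1 | h1
    · exact h1
    · exact absurd huv (rk_lt u v h1).ne
    · exact absurd huv (rk_lt v u h1).ne'
  obtain ⟨f, hf1, hf2⟩ := hCFG V X Θ M B W ℕ rk (fun w => B.L (Q w w).1) (fun w w' => (Q w w').1)
    rk_inj (by
      intro u v
      obtain ⟨x, y, z, h1, h2, h3, h4, -⟩ := q3 u v v
      show (Q v u).1 = B.inv (Q u v).1
      rw [← h2, ← h4]
      exact B.sym x y) (by
      intro u
      obtain ⟨x, y, z, h1, -⟩ := q3 u u u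
      show (Q u u).1 = B.fr (B.L (Q u u).1) (B.L (Q u u).1)
      rw [← h1]
      show B.c x x = B.fr (B.L (B.c x x)) (B.L (B.c x x))
      rw [B.left, B.diag]) (by
      intro u v
      obtain ⟨x, y, z, h1, h2, -⟩ := q3 u v v
      show B.L (Q u v).1 = B.L (Q u u).1
      rw [← h1, ← h2]
      show B.L (B.c x y) = B.L (B.c x x)
      rw [B.left, B.left]) (by
      intro K hK _
      obtain ⟨v₀⟩ := B.ne
      rcases K.eq_empty_or_nonempty with rfl | ⟨w₀, hw₀⟩
      · exact ⟨fun _ => v₀, fun x hx => absurd hx (Set.notMem_empty x),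
          fun x hx => absurd hx (Set.notMem_empty x)⟩
      haveI : Fintype K := Fintype.ofFinite K
      have hcard : Fintype.card K ≤ Fintype.card (Fin M) := by
        rw [Fintype.card_fin, ← Nat.card_eq_fintype_card]
        exact hK
      obtain ⟨g⟩ := Function.Embedding.nonempty_of_card_le hcard
      haveI : Nonempty K := ⟨⟨w₀, hw₀⟩⟩
      let e : Fin M → K := Function.invFun g
      have he : ∀ k : K, e (g k) = k := Function.leftInverse_invFun g.injective
      obtain ⟨x, hx⟩ := h fun i => o (e i).1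
      have key : ∀ (u v : W) (hu : u ∈ K) (hv : v ∈ K),
          B.ct (x (g ⟨u, hu⟩)) (x (g ⟨v, hv⟩)) = Q u v := by
        intro u v hu hv
        rw [hx, he, he]
      refine ⟨fun w => if hw : w ∈ K then x (g ⟨w, hw⟩) else v₀, ?_, ?_⟩
      · intro u hu v hv huv
        simp only [dif_pos hu, dif_pos hv] at huv
        apply eqQ
        rw [← key u v hu hv]
        exact (B.ct_snd_eq _ _).2 huv
      · intro u hu v hv
        simp only [dif_pos hu, dif_pos hv]
        rw [← key u v hu hv]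
        rfl)
  refine ⟨fun p => f (Quotient.mk S p), fun p p' => ?_⟩
  rw [← hQ p p']
  refine Prod.ext (hf2 _ _) ?_
  show cmp (f (Quotient.mk S p)) (f (Quotient.mk S p')) = _
  rcases tri (Quotient.mk S p) (Quotient.mk S p') with h1 | h1 | h1
  · rw [h1, reflQ]
    exact (cmp_eq_eq_iff _ _).2 rfl
  · rw [h1]
    exact (cmp_eq_lt_iff _ _).2 (hf1 _ _ (rk_lt _ _ h1))
  · rw [(gtQ _ _).2 h1]
    exact (cmp_eq_gt_iff _ _).2 (hf1 _ _ (rk_lt _ _ h1))

end Pool.Agent.H52.SO
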