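import Pool.Agent.H58.SO.Basic

/-!
# Several orbits of vertices: composition of homomorphisms on colours and orders (UMC)
-/

set_option autoImplicit false

namespace Pool.Agent.H52.SO

open Pool.Agent.H68.BP Pool.Agent.H58.SF Pool.Agent.H53.GC Pool.Agent.H53.NR Pool.Agent.H58.SO

theorem pf_UMC (hUMB : T_UMB) : T_UMC := by
  intro σ V X Θ V' X' Θ' V'' X'' Θ'' _ _ _ M B B' B'' 𝔸 𝔸' 𝔸'' m m' hm hm'
  refine ⟨?_, fun s => ?_⟩
  · intro s x hx
    obtain ⟨y, hy, h1⟩ := hm s x hx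
    obtain ⟨z, hz, h2⟩ := hm' s y hy
    refine ⟨z, hz, fun a b => ?_⟩
    rw [h2, h1]
  · have h1 := (hUMB σ V X Θ V' X' Θ' M B B' 𝔸 𝔸' m hm).2 s
    show B''.L (m' (m (B.fr s s, Ordering.eq))).1 = _
    rw [h1]
    rfl

end Pool.Agent.H52.SO
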